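import Pool.Agent.H466.HD.SA

/-!
# Statements, part A, for bands of frequencies in general position

As in `HD/SA.lean`, with `L / 4 ≤ c - w` replaced by `ε L ≤ c - w`.
-/

set_option autoImplicit false

namespace Pool.Agent.H466.HE

open Complex MeasureTheory Set Filter Topology
open scoped ComplexConjugate
open Pool.Agent.H477.E (MT bc Nn)
open Pool.Agent.H466.HD

noncomputable section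

/-- an admissible band of frequencies, general position -/
structure Bd2 (ε L c w : ℝ) : Prop where
  ep : 0 < ε
  w1 : ε * L ≤ w
  lo : ε * L ≤ c - w
  hi : c + w ≤ (1 / 2 - ε) * L

/-- **CKg** -/
def S_CKg : Prop := ∀ (β : ℝ → ℝ) (k : ℝ → ℂ) (C0 : ℝ), Bump β k C0 → ∀ ε : ℝ, 0 < ε →
  ∃ θ0 : ℝ, 0 < θ0 ∧ ∀ θ : ℝ, 0 < θ → θ ≤ θ0 → ∃ C T0 : ℝ, 0 < C ∧ 10 ≤ T0 ∧
  ∀ T c w : ℝ, T0 ≤ T → Bd2 ε (Real.log T) c w → ∀ N : ℕ,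
    ∑ j ∈ Finset.Icc 1 N, ‖cf θ (Real.log T) β c w j‖ ^ 2 / j ≤ C

/-- **L2g** -/
def S_L2g : Prop := ∀ (β : ℝ → ℝ) (k : ℝ → ℂ) (C0 : ℝ), Bump β k C0 → ∀ ε : ℝ, 0 < ε →
  ∃ θ0 : ℝ, 0 < θ0 ∧ ∀ θ : ℝ, 0 < θ → θ ≤ θ0 → ∃ T0 : ℝ, 10 ≤ T0 ∧
  ∀ T c w w0 : ℝ, T0 ≤ T → Bd2 ε (Real.log T) c w → 0 < w0 → w0 ≤ 1 →
    ∫ t in (T - T / (4 * Real.log T))..(T + T / (4 * Real.log T)),
      ‖Gav w0 (Tp θ T β c w) t - (m0 β c w : ℂ)‖ ^ 2 ≤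
    4 * (T / Real.log T) * (∑ p ∈ Pb c w, ∑ j ∈ Finset.Icc 1 (N0 θ (Real.log T) c w),
      ‖cf θ (Real.log T) β c w j‖ ^ 2 * β ((Real.log p - c) / w) ^ 2 / ((j : ℝ) * p) *
        Real.exp (-(w0 ^ 2 * (Real.log j - Real.log p) ^ 2)) +
      ∑ j ∈ Finset.Icc 2 (N0 θ (Real.log T) c w), ‖hf θ (Real.log T) β c w j‖ ^ 2 / j *
        Real.exp (-(w0 ^ 2 * Real.log j ^ 2)))

/-- **L3g** -/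
def S_L3g : Prop := ∀ (β : ℝ → ℝ) (k : ℝ → ℂ) (C0 : ℝ), Bump β k C0 → ∀ ε : ℝ, 0 < ε →
  ∀ θ : ℝ, 0 < θ → θ ≤ 1 / 16 → θ ≤ ε / 8 → ∃ C T0 : ℝ, 0 < C ∧ 10 ≤ T0 ∧
  ∀ (T c w w0 : ℝ) (N : ℕ), T0 ≤ T → Bd2 ε (Real.log T) c w → 0 < w0 → w0 ≤ 1 →
    1 ≤ w0 * Real.log T → (N : ℝ) ≤ Real.exp (θ * Real.log T) →
    ∑ j ∈ Finset.Icc 2 N, ‖hf θ (Real.log T) β c w j‖ ^ 2 / (j : ℝ) ^ (1 + 2 * w0) ≤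
      C / (w0 * Real.log T) ^ 2

/-- **LLNg** -/
def S_LLNg : Prop := ∀ (β : ℝ → ℝ) (k : ℝ → ℂ) (C0 : ℝ), Bump β k C0 → ∀ ε : ℝ, 0 < ε →
  ∃ θ0 : ℝ, 0 < θ0 ∧ ∀ θ : ℝ, 0 < θ → θ ≤ θ0 → ∃ C T0 : ℝ, 0 < C ∧ 10 ≤ T0 ∧
  ∀ T c w w0 : ℝ, T0 ≤ T → Bd2 ε (Real.log T) c w → 0 < w0 → w0 ≤ 1 → 1 ≤ w0 * Real.log T →
    ∫ t in (T - T / (4 * Real.log T))..(T + T / (4 * Real.log T)),
      ‖Gav w0 (Tp θ T β c w) t - (m0 β c w : ℂ)‖ ^ 2 ≤ C / (w0 * Real.log T) * (T / Real.log T)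

/-- **NAg** -/
def S_NAg : Prop := ∀ (β : ℝ → ℝ) (k : ℝ → ℂ) (C0 : ℝ), Bump β k C0 → ∀ ε : ℝ, 0 < ε →
  ∃ θ0 : ℝ, 0 < θ0 ∧ ∀ θ : ℝ, 0 < θ → θ ≤ θ0 → ∃ C T0 : ℝ, 0 < C ∧ 10 ≤ T0 ∧
  ∀ T c w μ : ℝ, T0 ≤ T → Bd2 ε (Real.log T) c w → 0 < μ → 1 ≤ μ * Real.log T ^ 2 → μ ≤ 1 →
    Continuous (DG k c w μ) ∧ (∀ y : ℝ, ‖DG k c w μ y‖ ≤ C * (2 + |y|)) ∧
    (∫ y in (T - T / (4 * Real.log T))..(T + T / (4 * Real.log T)),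
      ‖(Dn β c w y - DG k c w μ y) * Mt θ T y * Pn β c w y‖ ≤
        C / (μ * Real.log T ^ 2) * (T / Real.log T)) ∧
    (∫ y in (T - T / (4 * Real.log T))..(T + T / (4 * Real.log T)),
      ‖DG k c w μ y * Mt θ T y * Pn β c w y‖ ≤ C * (T / Real.log T)) ∧
    (∫ y in (T - T / (4 * Real.log T))..(T + T / (4 * Real.log T)), ‖Pn β c w y‖ ^ 2 ≤
      C * (T / Real.log T))

/-- **NTWg**: the pieces of zeta are not small, short windows, general position -/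
def S_NTWg : Prop := ∀ ρ ε η ε0 x0 : ℝ, 0 < ρ → 0 < ε → ε ≤ 1 / 32 → 0 < η → 0 < ε0 →
  0 ≤ x0 → x0 ≤ 1 - 8 * ε →
  ∃ A0 δ T0 : ℝ, 1 ≤ A0 ∧ 0 < δ ∧ 10 ≤ T0 ∧ ∀ T ℓ μ : ℝ, T0 ≤ T → |ℓ - Real.log T| ≤ 1 → 0 < μ →
    A0 ≤ μ * ℓ ^ 2 → μ * ℓ ≤ δ →
    volume {t : ℝ | t ∈ Icc (T - T / (8 * Real.log T)) (T + T / (8 * Real.log T)) ∧
      ∀ y u : ℝ, |y - t| ≤ ρ * (μ * ℓ) → ((1 - x0) / 2 - 2 * ε) * ℓ ≤ u →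
        u ≤ ((1 - x0) / 2 - ε) * ℓ →
        ‖Wg μ u y‖ < Real.sqrt μ * Real.exp (-(η * (μ * ℓ ^ 2))) *
          ‖riemannZeta (1 / 2 + (μ * ℓ : ℝ) + (t : ℂ) * I)‖} ≤
      ENNReal.ofReal (ε0 * (T / Real.log T))

/-- **NTg**: the pieces of zeta are not small, general position -/
def S_NTg : Prop := ∀ ρ ε η ε0 x0 : ℝ, 0 < ρ → 0 < ε → ε ≤ 1 / 32 → 0 < η → 0 < ε0 →
  0 ≤ x0 → x0 ≤ 1 - 8 * ε →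
  ∃ A0 δ T0 : ℝ, 1 ≤ A0 ∧ 0 < δ ∧ 10 ≤ T0 ∧ ∀ T μ : ℝ, T0 ≤ T → 0 < μ →
    A0 ≤ μ * Real.log T ^ 2 → μ * Real.log T ≤ δ →
    volume {t : ℝ | t ∈ Icc T (2 * T) ∧
      ∀ y u : ℝ, |y - t| ≤ ρ * (μ * Real.log T) →
        ((1 - x0) / 2 - 2 * ε) * Real.log T ≤ u → u ≤ ((1 - x0) / 2 - ε) * Real.log T →
        ‖Wg μ u y‖ < Real.sqrt μ * Real.exp (-(η * (μ * Real.log T ^ 2))) *
          ‖riemannZeta (1 / 2 + (μ * Real.log T : ℝ) + (t : ℂ) * I)‖} ≤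
      ENNReal.ofReal (ε0 * T)

/-- logarithmic kernel, smoothed at `0` -/
def kk (R ρ s : ℝ) : ℝ := max 0 (Real.log (R / (s + ρ)))

/-- **KS**: lower bound for the Riemann sums of the kernel -/
def S_KS : Prop := ∃ C : ℝ, 0 < C ∧ ∀ (ρ R σ x : ℝ) (N : ℕ), 0 < ρ → ρ ≤ R → R ≤ 1 → 0 < σ →
  σ ≤ R → R ≤ x → x + R ≤ σ * N →
  (Real.pi / 2 * R ^ 2 - C * (R * (ρ + σ))) / σ ≤
    ∑ i ∈ Finset.range (N + 1), ∫ s : ℝ, kk R ρ (Real.sqrt ((x - σ * i) ^ 2 + s ^ 2))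

end

end Pool.Agent.H466.HE
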