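import Pool.Agent.H466.HE.SB
import Pool.Agent.H466.HN.Asm6
import Pool.Agent.H404.HD.BUMP
import Pool.Agent.H363.HD.DB2
import Pool.Agent.H168.HD.KER
import Pool.Agent.H641.HD.MVT
import Pool.Agent.H227.HD.PR
import Pool.Agent.H734.HD.EUL
import Pool.Agent.H100.HE.CKg
import Pool.Agent.H806.HE.L2g
import Pool.Agent.H671.HE.L3g
import Pool.Agent.H997.HE.LLNg
import Pool.Agent.H387.HE.NAg
import Pool.Agent.H102.HD.GT
import Pool.Agent.H728.HD.NC
import Pool.Agent.H599.HE.NTg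
import Pool.Agent.H294.HD.GB
import Pool.Agent.H670.HD.GR
import Pool.Agent.H200.HE.HBg
import Pool.Agent.H161.HD.UL
import Pool.Agent.H643.HE.KS
import Pool.Agent.H287.E4.C1
import Pool.Agent.H720.E.RD
import Pool.Agent.H199.E2.SQ
import Pool.Agent.H803.E.Diag
import Pool.Agent.H282.E.Mom

/-!
# Assembly, part 1
-/

set_option autoImplicit false

namespace Pool.Agent.H466.HE

open Pool.Agent.H466.HP Pool.Agent.H466.HN Pool.Agent.H466.HD

theorem c1 : Pool.Agent.H477.E.S_C1 :=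
  Pool.Agent.H287.E4.c1 Pool.Agent.H720.E.S_RD_proof Pool.Agent.H199.E2.SQ Pool.Agent.H803.EDiag.main
theorem mom : Pool.Agent.H477.E.S_MOM := Pool.Agent.H282.E.mom c1
theorem bump : S_BUMP := Pool.Agent.H404.HDBump.bump
theorem db : S_DB := Pool.Agent.H363.HD.db
theorem ker : S_KER := Pool.Agent.H168.HD.ker c1
theorem mvt : S_MVT := Pool.Agent.H641.HD.mvt
theorem pr : S_PR := Pool.Agent.H227.HD.pr
theorem eul : S_EUL := Pool.Agent.H734.HD.eul
theorem ckg : S_CKg := Pool.Agent.H100.HE.ckg db ker mvt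
theorem l2g : S_L2g := Pool.Agent.H806.HE.l2g mvt
theorem l3g : S_L3g := Pool.Agent.H671.HE.l3g eul pr
theorem llng : S_LLNg := Pool.Agent.H997.HE.LLNg.llng ckg l2g l3g pr
theorem nag : S_NAg := Pool.Agent.H387.HE.NAg.nag db ker mvt pr
theorem gt : S_GT := Pool.Agent.H102.HD.gt
theorem nc : S_NC := Pool.Agent.H728.HD.nc mom
theorem gb : S_GB := Pool.Agent.H294.HD.gb
theorem gr : S_GR := Pool.Agent.H670.HD.gr
theorem ul : S_UL := Pool.Agent.H161.HD.ul back forw
theorem ks : S_KS := Pool.Agent.H643.HE.ks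

end Pool.Agent.H466.HE
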