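import Pool.Agent.H466.HE.F2
import Pool.Agent.H466.HP.H10
import Pool.Graph.R_pool_sql_team_seeded_3dad9d7b.NH13.UV.YH

/-!
# Sharp upper bound for the number of all zeros
-/

set_option autoImplicit false

open Complex MeasureTheory Filter Topology Set
open scoped ComplexConjugate

namespace Pool.Agent.H466.HE

open Pool.Agent.H466.HF Pool.Agent.H466.LD Pool.Agent.H466.HP Pool.Agent.H466.HN Pool.Agent.H466.HD

lemma ord_rf (lam : ℝ) (z : ℂ) :
    analyticOrderNatAt (LL gk lam) (-(conj z)) = analyticOrderNatAt (LL gk lam) z := by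
  obtain ⟨A, k⟩ := gk_kern
  unfold analyticOrderNatAt
  rw [Pool.Agent.NH13.UV.yh.order_rf (k.differentiable lam) (fun w => Flam_fe lam w) z]

lemma rf_inj : Function.Injective (fun z : ℂ => -(conj z)) := by
  intro a b h
  have h1 : -(conj a) = -(conj b) := h
  exact (starRingEnd ℂ).injective (neg_injective h1)

lemma sum_rf (lam : ℝ) (S : Finset ℂ) :
    ∑ z ∈ S.image (fun z : ℂ => -(conj z)), (analyticOrderNatAt (LL gk lam) z : ℝ) =
      ∑ z ∈ S, (analyticOrderNatAt (LL gk lam) z : ℝ) := by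
  rw [Finset.sum_image (fun a _ b _ h => rf_inj h)]
  exact Finset.sum_congr rfl fun z _ => by rw [ord_rf]

theorem tub (h1 : S_UPP) (h2 : S_OUT) (h3 : S_ZF4) : S_TUB := by
  intro ε hε
  obtain ⟨ε', A1, δ1, T1, hε', hA1, hδ1, hT1, h1⟩ := h1 (ε / 4) (by linarith)
  obtain ⟨δ3, T3, hδ3, hT3, h3⟩ := h3
  have hpi := Real.pi_pos
  set ε2 : ℝ := min (min ε' (ε / (4 * Real.pi))) 1 with hε2
  have e1 : 0 < ε2 := lt_min (lt_min hε' (by positivity)) one_pos
  have e2 : ε2 ≤ ε' := (min_le_left _ _).trans (min_le_left _ _)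
  have e3 : ε2 ≤ ε / (4 * Real.pi) := (min_le_left _ _).trans (min_le_right _ _)
  have e4 : ε2 ≤ 1 := min_le_right _ _
  obtain ⟨A2, δ2, T2, hA2, hδ2, hT2, h2⟩ := h2 ε2 3 e1 e4 (by norm_num)
  refine ⟨max A1 A2, min δ1 (min δ2 δ3), max T1 (max T2 T3), le_max_of_le_left hA1,
    lt_min hδ1 (lt_min hδ2 hδ3), le_max_of_le_left hT1, fun T μ hT hμ hA hδ S hS => ?_⟩
  have t1 : T1 ≤ T := (le_max_left _ _).trans hT
  have t2 : T2 ≤ T := ((le_max_left _ _).trans (le_max_right _ _)).trans hT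
  have t3 : T3 ≤ T := ((le_max_right _ _).trans (le_max_right _ _)).trans hT
  have d1 : μ * Real.log T ≤ δ1 := hδ.trans (min_le_left _ _)
  have d2 : μ * Real.log T ≤ δ2 := hδ.trans ((min_le_right _ _).trans (min_le_left _ _))
  have d3 : μ * Real.log T ≤ δ3 := hδ.trans ((min_le_right _ _).trans (min_le_right _ _))
  have a1 : A1 ≤ μ * Real.log T ^ 2 := (le_max_left _ _).trans hA
  have a2 : A2 ≤ μ * Real.log T ^ 2 := (le_max_right _ _).trans hA
  have hL : 0 < Real.log T := Real.log_pos (by linarith)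
  have hTp : 0 < T := by linarith
  set Δ : ℝ := μ * Real.log T with hΔ
  have hΔ0 : 0 < Δ := by positivity
  have hN0 : 0 ≤ T * Real.log T := by positivity
  set S1 : Finset ℂ := S.filter fun z => 0 ≤ z.re ∧ z.re ≤ (1 + ε') * Δ with hS1
  set S2 : Finset ℂ := S.filter fun z => z.re < 0 ∧ -((1 + ε') * Δ) ≤ z.re with hS2
  set S3 : Finset ℂ := S.filter fun z => (1 + ε') * Δ < |z.re| with hS3
  have hsub : S ⊆ (S1 ∪ S2) ∪ S3 := by
    intro z hz
    rw [Finset.mem_union, Finset.mem_union, hS1, hS2, hS3, Finset.mem_filter, Finset.mem_filter,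
      Finset.mem_filter]
    rcases lt_or_ge ((1 + ε') * Δ) |z.re| with h | h
    · exact Or.inr ⟨hz, h⟩
    · left
      rw [abs_le] at h
      rcases lt_or_ge z.re 0 with h0 | h0
      · exact Or.inr ⟨hz, h0, h.1⟩
      · exact Or.inl ⟨hz, h0, h.2⟩
  have hnn : ∀ z ∈ (S1 ∪ S2) ∪ S3, 0 ≤ (analyticOrderNatAt (LL gk (-μ)) z : ℝ) :=
    fun z _ => Nat.cast_nonneg _
  have hun : ∀ A B : Finset ℂ, ∑ z ∈ A ∪ B, (analyticOrderNatAt (LL gk (-μ)) z : ℝ) ≤
      ∑ z ∈ A, (analyticOrderNatAt (LL gk (-μ)) z : ℝ) +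
        ∑ z ∈ B, (analyticOrderNatAt (LL gk (-μ)) z : ℝ) := by
    intro A B
    rw [← Finset.sum_union_inter]
    have : 0 ≤ ∑ z ∈ A ∩ B, (analyticOrderNatAt (LL gk (-μ)) z : ℝ) :=
      Finset.sum_nonneg fun z _ => Nat.cast_nonneg _
    linarith
  have b0 : ∑ z ∈ S, (analyticOrderNatAt (LL gk (-μ)) z : ℝ) ≤
      ∑ z ∈ (S1 ∪ S2) ∪ S3, (analyticOrderNatAt (LL gk (-μ)) z : ℝ) :=
    Finset.sum_le_sum_of_subset_of_nonneg hsub fun z hz _ => hnn z hz
  have b1 : ∑ z ∈ S1, (analyticOrderNatAt (LL gk (-μ)) z : ℝ) ≤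
      ((1 - 0) / 2 + ε / 4) * (T * Real.log T / (2 * Real.pi)) := by
    apply h1 T μ t1 hμ a1 d1 0 1 le_rfl zero_le_one le_rfl
    intro z hz
    rw [hS1, Finset.mem_filter] at hz
    obtain ⟨c1, c2, c3⟩ := hS z hz.1
    refine ⟨c1, c2, c3, ?_, hz.2.2⟩
    have : (0 - ε') * Δ ≤ 0 := by nlinarith
    exact this.trans hz.2.1
  have b2 : ∑ z ∈ S2, (analyticOrderNatAt (LL gk (-μ)) z : ℝ) ≤
      ((1 - 0) / 2 + ε / 4) * (T * Real.log T / (2 * Real.pi)) := by
    rw [← sum_rf]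
    apply h1 T μ t1 hμ a1 d1 0 1 le_rfl zero_le_one le_rfl
    intro w hw
    obtain ⟨z, hz, rfl⟩ := Finset.mem_image.mp hw
    rw [hS2, Finset.mem_filter] at hz
    obtain ⟨c1, c2, c3⟩ := hS z hz.1
    have r1 : (-(conj z)).re = -z.re := by simp
    have r2 : (-(conj z)).im = z.im := by simp
    refine ⟨?_, ?_, ?_, ?_, ?_⟩
    · rw [Flam_fe, c1, map_zero]
    · rw [r2]; exact c2
    · rw [r2]; exact c3
    · rw [r1]
      have : (0 - ε') * Δ ≤ 0 := by nlinarith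
      linarith [hz.2.1]
    · rw [r1]
      linarith [hz.2.2]
  have b3 : ∑ z ∈ S3, (analyticOrderNatAt (LL gk (-μ)) z : ℝ) ≤ ε2 * (T * Real.log T) := by
    apply h2 T μ t2 hμ a2 d2
    intro z hz
    rw [hS3, Finset.mem_filter] at hz
    obtain ⟨c1, c2, c3⟩ := hS z hz.1
    refine ⟨c1, ?_, ?_, c2, c3⟩
    · have : (1 + ε2) * Δ ≤ (1 + ε') * Δ := by gcongr
      exact this.trans hz.2.le
    · by_contra hcon
      exact h3 T μ t3 hμ d3 z c2 c3 (not_le.mp hcon).le c1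
  have b4 : ε2 * (T * Real.log T) ≤ ε / 2 * (T * Real.log T / (2 * Real.pi)) := by
    calc ε2 * (T * Real.log T) ≤ ε / (4 * Real.pi) * (T * Real.log T) := by gcongr
      _ = ε / 2 * (T * Real.log T / (2 * Real.pi)) := by
        field_simp
        ring
  have b5 := hun (S1 ∪ S2) S3
  have b6 := hun S1 S2
  have b7 : ((1 - 0) / 2 + ε / 4) * (T * Real.log T / (2 * Real.pi)) +
      ((1 - 0) / 2 + ε / 4) * (T * Real.log T / (2 * Real.pi)) +
      ε / 2 * (T * Real.log T / (2 * Real.pi)) = (1 + ε) * (T * Real.log T / (2 * Real.pi)) := by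
    ring
  linarith

end Pool.Agent.H466.HE
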