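import Pool.Agent.H466.HE.Asm1
import Pool.Agent.H466.HE.F3
import Pool.Agent.H466.HP.Asm3
import Pool.Agent.H466.HP.Asm4
import Pool.Agent.H357.HE.UPP
import Pool.Agent.H106.HE.PHI
import Pool.Agent.H157.HE.NTW
import Pool.Agent.H549.HE.ZF4
import Pool.Agent.H274.HE.UHg
import Pool.Agent.H249.HE.JX
import Pool.Agent.H181.HE.Out
import Pool.Agent.H618.HE.FBg
import Pool.Agent.H195.HE.ZF2
import Pool.Agent.H282.HE.ZF1
import Pool.Agent.H807.HE.UNI
import Pool.Agent.H955.HE.ZFG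
import Pool.Agent.H32.HE.CNTg
import Pool.Agent.H289.HE.TLBg

/-!
# Assembly, part 2
-/

set_option autoImplicit false

namespace Pool.Agent.H466.HE

open Pool.Agent.H466.HP Pool.Agent.H466.HN Pool.Agent.H466.HD

theorem ntwg : S_NTWg := Pool.Agent.H157.HE.ntwg bump llng nag gt nc pr
theorem ntg' : S_NTg := ntg ntwg
theorem uhg : S_UHg := Pool.Agent.H274.HE.uhg back
theorem hbg : S_HBg := Pool.Agent.H200.HE.hbg ntg' fbg uhg gb gr
theorem jx : S_JX := Pool.Agent.H249.HE.jx uh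
theorem zfg : S_ZFG := Pool.Agent.H955.HE.zfg
theorem zf1 : S_ZF1 := Pool.Agent.H282.HE.zf1 zfg
theorem zf2 : S_ZF2 := Pool.Agent.H195.HE.zf2 zfg
theorem zf4 : S_ZF4 := Pool.Agent.H549.HE.ZF4.zf4 zfg
theorem cntg : S_CNTg := Pool.Agent.H32.HE.cntg back forw
theorem phi : S_PHI := Pool.Agent.H106.HE.phi hbg jx cntg regx reg
theorem upp : S_UPP := Pool.Agent.H357.HE.upp phi ks
theorem out : S_OUT := Pool.Agent.H181.HE.out zf1 zf2 cntg regx reg intq
theorem tubb : S_TUB := tub upp out zf4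
theorem tlbg : S_TLBg := Pool.Agent.H289.HE.tlbg ul
theorem uni : S_UNI := Pool.Agent.H807.HE.uni upp tlbg out

end Pool.Agent.H466.HE
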