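import Pool.Agent.H466.HE.SC
import Pool.Agent.H106.HE.PHI

/-!
# Few zeros near small sets of ordinates
-/

set_option autoImplicit false

namespace Pool.Agent.H466.HE

open Complex MeasureTheory Set Filter Topology
open scoped ComplexConjugate
open Pool.Agent.H466.HF Pool.Agent.H466.LD Pool.Agent.H466.HP Pool.Agent.H466.HN Pool.Agent.H466.HD
open Pool.Agent.H106.HE (lev sum_lev lev_nonneg largest geo)

/-- integration of a function bounded on levels, measurable function -/
theorem int_lev2 (g : ℝ → ℝ) (hg : AEStronglyMeasurable g volume) (hg0 : ∀ t, 0 ≤ g t) (n : ℕ)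
    (X : ℕ → Set ℝ)
    (N V : ℕ → ℝ) (hN : ∀ j, 0 ≤ N j) (hV : ∀ j, 0 ≤ V j)
    (hX : ∀ j < n, volume (X j) ≤ ENNReal.ofReal (V j))
    (h : ∀ t, g t = 0 ∨ ∃ j < n, t ∈ X j ∧ g t ≤ N j) :
    ∫ t, g t ≤ ∑ j ∈ Finset.range n, N j * V j := by
  have h1 : ∀ t, ENNReal.ofReal (g t) ≤ ∑ j ∈ Finset.range n,
      (toMeasurable volume (X j)).indicator (fun _ => ENNReal.ofReal (N j)) t := by
    intro t
    rcases h t with h0 | ⟨j, hj, hjX, hjN⟩
    · rw [h0]
      simp
    · refine (ENNReal.ofReal_le_ofReal hjN).trans ?_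
      have h2 : (toMeasurable volume (X j)).indicator (fun _ => ENNReal.ofReal (N j)) t =
          ENNReal.ofReal (N j) := indicator_of_mem (subset_toMeasurable _ _ hjX) _
      rw [← h2]
      exact Finset.single_le_sum
        (f := fun j => (toMeasurable volume (X j)).indicator (fun _ => ENNReal.ofReal (N j)) t)
        (fun _ _ => bot_le) (Finset.mem_range.2 hj)
  have h2 : ∫⁻ t, ENNReal.ofReal (g t) ≤ ENNReal.ofReal (∑ j ∈ Finset.range n, N j * V j) := by
    refine (lintegral_mono h1).trans ?_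
    rw [lintegral_finsetSum _ (fun j _ => measurable_const.indicator
      (measurableSet_toMeasurable _ _)), ENNReal.ofReal_sum_of_nonneg
      (fun j _ => mul_nonneg (hN j) (hV j))]
    refine Finset.sum_le_sum fun j hj => ?_
    rw [lintegral_indicator_const (measurableSet_toMeasurable _ _), measure_toMeasurable,
      ENNReal.ofReal_mul (hN j)]
    exact mul_le_mul_right (hX j (Finset.mem_range.1 hj)) _
  rw [integral_eq_lintegral_of_nonneg_ae (Filter.Eventually.of_forall hg0) hg]
  exact ENNReal.toReal_le_of_le_ofReal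
    (Finset.sum_nonneg fun j _ => mul_nonneg (hN j) (hV j)) h2

theorem bad (h3 : S_CNTg) (h4 : S_REGX) : S_BAD := by
  obtain ⟨κc, Cc, Ac, Tc, δc, hκc, hCc, hAc, hTc, hδc, hcnt⟩ := h3 128 (by norm_num)
  obtain ⟨CX, cX, TX, hCX, hcX, hTX, hregx⟩ := h4 64 κc (by norm_num) hκc
  intro ε hε
  set q0 : ℝ := cX / 64 with hq0
  have hq0p : 0 < q0 := by positivity
  set E0 : ℝ := Cc * CX / 32 * (16 / q0 ^ 2) with hE0
  have hEp : 0 < E0 := by positivity
  obtain ⟨Ae, hAe⟩ : ∃ Ae : ℝ, ∀ A : ℝ, Ae ≤ A → E0 * Real.exp (-(cX * A / 64 / 2)) ≤ ε / 2 := by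
    refine ⟨128 / cX * Real.log (E0 / (ε / 2)), fun A hA => ?_⟩
    have e1 : Real.log (E0 / (ε / 2)) ≤ cX * A / 64 / 2 := by
      have e2 : cX / 128 * (128 / cX * Real.log (E0 / (ε / 2))) ≤ cX / 128 * A :=
        mul_le_mul_of_nonneg_left hA (by positivity)
      have e3 : cX / 128 * (128 / cX * Real.log (E0 / (ε / 2))) = Real.log (E0 / (ε / 2)) := by
        field_simp
      linarith
    have e4 : E0 / (ε / 2) ≤ Real.exp (cX * A / 64 / 2) := by
      rw [← Real.exp_log (show 0 < E0 / (ε / 2) by positivity)]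
      exact Real.exp_le_exp.2 e1
    rw [Real.exp_neg, ← div_eq_mul_inv, div_le_iff₀ (Real.exp_pos _)]
    rw [div_le_iff₀ (by positivity)] at e4
    linarith
  refine ⟨32 * ε / Cc, max Ac Ae, min 1 δc, max Tc TX, by positivity,
    hAc.trans (le_max_left _ _), lt_min one_pos hδc, hTc.trans (le_max_left _ _), ?_⟩
  intro T μ hT hμ hA hδ E hEm hEI hEv S hS
  have hTTc : Tc ≤ T := (le_max_left _ _).trans hT
  have hTTX : TX ≤ T := (le_max_right _ _).trans hT
  have hT10 : 10 ≤ T := hTc.trans hTTc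
  have hTp : 0 < T := by linarith
  have hL : 0 < Real.log T := Real.log_pos (by linarith)
  set L := Real.log T with hLdef
  set A : ℝ := μ * L ^ 2 with hAdef
  set Δ : ℝ := μ * L with hΔ
  have hAc' : Ac ≤ A := (le_max_left _ _).trans hA
  have hAe' : Ae ≤ A := (le_max_right _ _).trans hA
  have hΔ1 : Δ ≤ 1 := hδ.trans (min_le_left _ _)
  have hΔc : Δ ≤ δc := hδ.trans (min_le_right _ _)
  have hAp : 0 < A := by positivity
  have hΔp : 0 < Δ := by positivity
  have hΔL : Δ * L = A := by rw [hΔ, hAdef]; ring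
  set m : ℂ → ℝ := fun z => (analyticOrderNatAt (LL gk (-μ)) z : ℝ) with hm
  have hm0 : ∀ z, 0 ≤ m z := fun z => Nat.cast_nonneg _
  set f : ℝ → ℝ := fun t => ∑ z ∈ S with |z.im - t| ≤ Δ, m z with hf
  have hf0 : ∀ t, 0 ≤ f t := fun t => Finset.sum_nonneg fun z _ => hm0 z
  have hfm : Measurable f := by
    have e : f = fun t => ∑ z ∈ S, (Icc (z.im - Δ) (z.im + Δ)).indicator (fun _ => m z) t := by
      funext t
      rw [hf]
      simp only
      rw [Finset.sum_filter]
      refine Finset.sum_congr rfl fun z _ => ?_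
      by_cases hz : |z.im - t| ≤ Δ
      · rw [if_pos hz, indicator_of_mem]
        have := abs_le.1 hz
        exact ⟨by linarith [this.2], by linarith [this.1]⟩
      · rw [if_neg hz, indicator_of_notMem]
        intro hc
        exact hz (abs_le.2 ⟨by linarith [hc.2], by linarith [hc.1]⟩)
    rw [e]
    exact Finset.measurable_fun_sum _ fun z _ => measurable_const.indicator measurableSet_Icc
  set g : ℝ → ℝ := E.indicator f with hg
  have hg0 : ∀ t, 0 ≤ g t := fun t => indicator_nonneg (fun t _ => hf0 t) t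
  have hgm : Measurable g := hfm.indicator hEm
  have hint : ∫ t in E, f t = ∫ t, g t := (integral_indicator hEm).symm
  show ∫ t in E, f t ≤ _
  rw [hint]
  -- the scales
  set y : ℕ → ℝ := fun k => 2 ^ k * Δ / 64 with hy
  have hyp : ∀ k, 0 < y k := fun k => by rw [hy]; positivity
  have hyge : ∀ k, Δ / 64 ≤ y k := by
    intro k
    have e1 : (1 : ℝ) ≤ 2 ^ k := one_le_pow₀ (by norm_num)
    have e2 : 1 * Δ ≤ 2 ^ k * Δ := mul_le_mul_of_nonneg_right e1 hΔp.le
    simp only [hy]
    linarith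
  obtain ⟨K0, hK0⟩ : ∃ K0 : ℕ, 2 ≤ y K0 := by
    obtain ⟨k, hk⟩ := pow_unbounded_of_one_lt (128 / Δ) (one_lt_two (α := ℝ))
    refine ⟨k, ?_⟩
    rw [div_lt_iff₀ hΔp] at hk
    simp only [hy]
    linarith
  have hK00 : K0 ≠ 0 := by
    intro h0
    rw [h0] at hK0
    simp only [hy, pow_zero] at hK0
    linarith
  obtain ⟨K, rfl⟩ : ∃ K, K0 = K + 1 := ⟨K0 - 1, by omega⟩
  -- the local count at the scale `Y`
  have hN : ∀ t ∈ Icc (T / 2) (4 * T), ∀ Y : ℝ, Δ / 64 ≤ Y → Y ≤ 2 → Reg1 t Y 64 κc L →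
      f t ≤ Cc * (Y * L) := by
    intro t ht Y hY1 hY2 hr
    exact hcnt T t Y μ hTTc ht.1 ht.2 (by linarith) hY2 hr hμ hAc' hΔc (by linarith)
      (S.filter fun z : ℂ => |z.im - t| ≤ Δ) (by
        intro z hz'
        obtain ⟨g1, g2⟩ := Finset.mem_filter.1 hz'
        obtain ⟨g3, g4⟩ := hS z g1
        exact ⟨g3, g2, by linarith⟩)
  have hN2 : ∀ t ∈ Icc (T / 2) (4 * T), ∀ k : ℕ, (2 ≤ y k ∨ Reg1 t (y k) 64 κc L) →
      f t ≤ Cc * (y k * L) := by
    intro t ht k hk
    rcases le_or_gt 2 (y k) with e | e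
    · have e1 := hN t ht 2 (by linarith) le_rfl ((hregx T hTTX).2 2 le_rfl t ht)
      refine e1.trans ?_
      exact mul_le_mul_of_nonneg_left (mul_le_mul_of_nonneg_right e hL.le) hCc.le
    · exact hN t ht (y k) (hyge k) e.le (hk.resolve_left (not_le.2 e))
  -- the bad sets
  set X : ℕ → Set ℝ := fun k => {t : ℝ | t ∈ Icc (T / 2) (4 * T) ∧ ¬ Reg1 t (y k) 64 κc L}
    with hX
  have hfin := int_lev2 g hgm.aestronglyMeasurable hg0 (K + 1 + 2)
    (lev E ∅ X)
    (lev (Cc * (y 0 * L)) 0 (fun k => Cc * (y (k + 1) * L)))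
    (lev (32 * ε / Cc * T) 0 (fun k => CX * T * Real.exp (-(cX * y k * L))))
    (fun j => lev_nonneg (mul_nonneg hCc.le (mul_nonneg (hyp 0).le hL.le)) le_rfl
      (fun k => mul_nonneg hCc.le (mul_nonneg (hyp _).le hL.le)) j)
    (fun j => lev_nonneg (by positivity) le_rfl (fun k => by positivity) j) (by
      intro j _
      match j with
      | 0 => exact hEv
      | 1 =>
        change volume (∅ : Set ℝ) ≤ _
        simp
      | (k + 2) => exact (hregx T hTTX).1 (y k) (hyp k)) (by
      intro t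
      by_cases htE : t ∈ E
      · right
        have ht' := hEI htE
        have hgt : g t = f t := indicator_of_mem htE _
        rw [hgt]
        by_cases hex : ∃ k < K + 1, t ∈ X k
        · obtain ⟨k, hk, hkX, hk'⟩ := largest (K + 1) (fun k => t ∈ X k) hex
          refine ⟨k + 2, by omega, hkX, ?_⟩
          refine hN2 t ht' (k + 1) ?_
          rcases hk' with e | e
          · left
            rw [e]
            exact hK0
          · right
            by_contra hc
            exact e ⟨ht', hc⟩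
        · have hr : Reg1 t (y 0) 64 κc L := by
            by_contra hc
            exact hex ⟨0, by omega, ht', hc⟩
          exact ⟨0, by omega, htE, hN2 t ht' 0 (Or.inr hr)⟩
      · left
        exact indicator_of_notMem htE _)
  rw [sum_lev] at hfin
  have hgeo := geo (q := cX * A / 64) hq0p (by
    rw [hq0]
    have e1 : cX * 1 ≤ cX * A := mul_le_mul_of_nonneg_left (hAc.trans hAc') hcX.le
    linarith) (K + 1)
  have hsum : ∑ k ∈ Finset.range (K + 1),
      Cc * (y (k + 1) * L) * (CX * T * Real.exp (-(cX * y k * L))) =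
      T * A * ((Cc * CX / 32) *
        ∑ k ∈ Finset.range (K + 1), (2 : ℝ) ^ k * Real.exp (-(2 ^ k * (cX * A / 64)))) := by
    rw [Finset.mul_sum, Finset.mul_sum]
    refine Finset.sum_congr rfl fun k _ => ?_
    have e1 : cX * y k * L = 2 ^ k * (cX * A / 64) := by
      simp only [hy]
      rw [← hΔL]
      ring
    have e2 : y (k + 1) * L = 2 ^ k * A / 32 := by
      simp only [hy, pow_succ]
      rw [← hΔL]
      ring
    rw [e1, e2]
    ring
  have htail : ∑ k ∈ Finset.range (K + 1),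
      Cc * (y (k + 1) * L) * (CX * T * Real.exp (-(cX * y k * L))) ≤ T * A * (ε / 2) := by
    rw [hsum]
    refine mul_le_mul_of_nonneg_left ?_ (by positivity)
    calc (Cc * CX / 32) *
        ∑ k ∈ Finset.range (K + 1), (2 : ℝ) ^ k * Real.exp (-(2 ^ k * (cX * A / 64)))
        ≤ (Cc * CX / 32) * (16 / q0 ^ 2 * Real.exp (-(cX * A / 64 / 2))) :=
          mul_le_mul_of_nonneg_left hgeo (by positivity)
      _ = E0 * Real.exp (-(cX * A / 64 / 2)) := by rw [hE0]; ring
      _ ≤ ε / 2 := hAe A hAe'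
  have hy0 : y 0 * L = A / 64 := by
    simp only [hy, pow_zero]
    rw [← hΔL]
    ring
  have hlast : Cc * (y 0 * L) * (32 * ε / Cc * T) = T * A * (ε / 2) := by
    rw [hy0]
    field_simp
    ring
  have hfin2 : ∫ t, g t ≤ T * A * (ε / 2) + T * A * (ε / 2) := by
    refine hfin.trans ?_
    rw [hlast]
    linarith
  refine hfin2.trans (le_of_eq ?_)
  ring

end Pool.Agent.H466.HE
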