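import Pool.Agent.H466.HE.SB

/-!
# Statements, part C: the local law

For most `t` the zeros of `H` in the box `|Re z| ≤ Δ`, `|Im z - t| ≤ W Δ` are uniformly distributed.
-/

set_option autoImplicit false

namespace Pool.Agent.H466.HE

open Complex MeasureTheory Set Filter Topology
open scoped ComplexConjugate
open Pool.Agent.H466.HF Pool.Agent.H466.LD Pool.Agent.H466.HP Pool.Agent.H466.HN Pool.Agent.H466.HD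
open Pool.Agent.H862.VK (Yz)

/-- **KS2**: lower bound for the two-dimensional Riemann sums of the kernel -/
def S_KS2 : Prop := ∃ C : ℝ, 0 < C ∧ ∀ (ρ R σ x y : ℝ) (N M : ℕ), 0 < ρ → ρ ≤ R → R ≤ 1 → 0 < σ →
  σ ≤ R → R ≤ x → x + R ≤ σ * N → |y| + R ≤ σ * M →
  (Real.pi / 2 * R ^ 2 - C * (R * (ρ + σ))) / σ ^ 2 ≤
    ∑ i ∈ Finset.range (N + 1), ∑ j ∈ Finset.Icc (-(M : ℤ)) M,
      kk R ρ (Real.sqrt ((x - σ * i) ^ 2 + (y - σ * j) ^ 2))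

/-- a grid of good points around `t` -/
def GG (ρ σ W κ A1 T t μ : ℝ) : Prop :=
  ∀ i j : ℤ, 0 ≤ σ * i → σ * i ≤ 1 → |σ * j| ≤ W + 1 →
    Rg T (t + σ * j * (μ * Real.log T)) A1 (1 / κ) κ ∧
    ∃ z : ℂ, ‖z - ((σ * i * (μ * Real.log T) : ℝ) +
        ((t + σ * j * (μ * Real.log T) : ℝ) : ℂ) * I)‖ ≤ ρ * (μ * Real.log T) ∧
      Gm T (t + σ * j * (μ * Real.log T)) μ *
        Real.exp (((σ * i) ^ 2 / 4 - ρ) * (μ * Real.log T ^ 2)) ≤ ‖LL gk (-μ) z‖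

/-- **GGM**: most points have good grids -/
def S_GGM : Prop := ∀ ρ σ W ε0 : ℝ, 0 < ρ → ρ ≤ 1 / 4 → 0 < σ → 0 < W → 0 < ε0 →
  ∃ κ0 : ℝ, 0 < κ0 ∧ ∀ κ : ℝ, 0 < κ → κ ≤ κ0 → κ ≤ 1 →
    ∃ A1 A0 δ T0 : ℝ, 1 ≤ A1 ∧ 1 ≤ A0 ∧ 0 < δ ∧ 10 ≤ T0 ∧ ∀ T μ : ℝ, T0 ≤ T → 0 < μ →
    A0 ≤ μ * Real.log T ^ 2 → μ * Real.log T ≤ δ →
    volume {t : ℝ | t ∈ Icc (T + 1) (2 * T - 1) ∧ ¬ GG ρ σ W κ A1 T t μ} ≤ ENNReal.ofReal (ε0 * T)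

/-- **LUP**: sharp upper bound for the number of the zeros in boxes -/
def S_LUP : Prop := ∀ ε W : ℝ, 0 < ε → ε ≤ 1 → 0 < W →
  ∃ ε' ρ σ κ0 δ2 : ℝ, 0 < ε' ∧ 0 < ρ ∧ ρ ≤ 1 / 4 ∧ 0 < σ ∧ σ ≤ 1 ∧ 0 < κ0 ∧ 0 < δ2 ∧
    ∀ κ : ℝ, 0 < κ → κ ≤ κ0 → ∀ A1 : ℝ, 1 ≤ A1 → ∃ A0 T0 : ℝ, 1 ≤ A0 ∧ 10 ≤ T0 ∧
    ∀ T t μ : ℝ, T0 ≤ T → T + 1 ≤ t → t ≤ 2 * T - 1 → 0 < μ →
      A0 ≤ μ * Real.log T ^ 2 → μ * Real.log T ≤ δ2 → GG ρ σ W κ A1 T t μ →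
      ∀ a b : ℝ, 0 ≤ a → a ≤ b → b ≤ 1 →
      ∀ S : Finset ℂ, (∀ z ∈ S, LL gk (-μ) z = 0 ∧ |z.im - t| ≤ W * (μ * Real.log T) ∧
          (a - ε') * (μ * Real.log T) ≤ z.re ∧ z.re ≤ (b + ε') * (μ * Real.log T)) →
        ∑ z ∈ S, (analyticOrderNatAt (LL gk (-μ)) z : ℝ) ≤
          ((b - a) / 2 + ε) * (W * (μ * Real.log T ^ 2) / Real.pi)

/-- **BAD**: few zeros near small sets of ordinates -/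
def S_BAD : Prop := ∀ ε : ℝ, 0 < ε → ∃ ε0 A0 δ T0 : ℝ, 0 < ε0 ∧ 1 ≤ A0 ∧ 0 < δ ∧ 10 ≤ T0 ∧
  ∀ T μ : ℝ, T0 ≤ T → 0 < μ → A0 ≤ μ * Real.log T ^ 2 → μ * Real.log T ≤ δ →
    ∀ E : Set ℝ, MeasurableSet E → E ⊆ Icc (T / 2) (4 * T) → volume E ≤ ENNReal.ofReal (ε0 * T) →
    ∀ S : Finset ℂ, (∀ z ∈ S, LL gk (-μ) z = 0 ∧ |z.re| ≤ 2 * (μ * Real.log T)) →
      ∫ t in E, ∑ z ∈ S with |z.im - t| ≤ μ * Real.log T,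
        (analyticOrderNatAt (LL gk (-μ)) z : ℝ) ≤ ε * (μ * Real.log T ^ 2) * T

/-- **LLW**: the local law -/
def S_LLW : Prop := ∀ ε W : ℝ, 0 < ε → 0 < W → ∃ A0 δ T0 : ℝ, 1 ≤ A0 ∧ 0 < δ ∧ 10 ≤ T0 ∧
  ∀ T μ : ℝ, T0 ≤ T → 0 < μ → A0 ≤ μ * Real.log T ^ 2 → μ * Real.log T ≤ δ →
    ∃ B : Set ℝ, volume B ≤ ENNReal.ofReal (ε * T) ∧ ∀ t ∈ Icc T (2 * T), t ∉ B →
      (∀ z : ℂ, LL gk (-μ) z = 0 → |z.im - t| ≤ W * (μ * Real.log T) →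
        |z.re| ≤ (1 + ε) * (μ * Real.log T)) ∧
      ∀ v : ℝ, 0 ≤ v → v ≤ 1 →
      (∀ S : Finset ℂ, (∀ z ∈ S, LL gk (-μ) z = 0 ∧ |z.re| ≤ v * (μ * Real.log T) ∧
          |z.im - t| ≤ W * (μ * Real.log T)) →
        ∑ z ∈ S, (analyticOrderNatAt (LL gk (-μ)) z : ℝ) ≤
          (v + ε) * (W * (μ * Real.log T ^ 2) / Real.pi)) ∧
      ∃ Z : Finset ℂ, (∀ z ∈ Z, LL gk (-μ) z = 0 ∧ |z.re| ≤ v * (μ * Real.log T) ∧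
          |z.im - t| ≤ W * (μ * Real.log T)) ∧
        (v - ε) * (W * (μ * Real.log T ^ 2) / Real.pi) ≤
          ∑ z ∈ Z, (analyticOrderNatAt (LL gk (-μ)) z : ℝ)

end Pool.Agent.H466.HE
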