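import Pool.Agent.H466.HE.F2
import Pool.Agent.H466.HE.SC

/-!
# The local law for the flow
-/

set_option autoImplicit false

open Complex MeasureTheory Filter Topology Set
open scoped ComplexConjugate

namespace Pool.Agent.H466.HE

open Pool.Agent.H466.HF Pool.Agent.H466.LD Pool.Agent.H466.HP Pool.Agent.H466.HN Pool.Agent.H466.HD

theorem llw_flow (h : S_LLW) : ∀ ε W : ℝ, 0 < ε → 0 < W → ∃ A0 δ T0 : ℝ, 0 < A0 ∧ 0 < δ ∧
    10 ≤ T0 ∧ ∀ T lam : ℝ, T0 ≤ T → A0 / Real.log T ^ 2 ≤ lam → lam ≤ δ / Real.log T →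
      ∃ B : Set ℝ, volume B ≤ ENNReal.ofReal (ε * T) ∧ ∀ t ∈ Icc T (2 * T), t ∉ B →
        (∀ s : ℂ, flow (-lam) s = 0 → |s.im - t| ≤ W * (lam * Real.log T) →
          |s.re - 1 / 2| ≤ (1 + ε) * (lam * Real.log T)) ∧
        ∀ v : ℝ, 0 ≤ v → v ≤ 1 →
        (∀ S : Finset ℂ, (∀ s ∈ S, flow (-lam) s = 0 ∧ |s.re - 1 / 2| ≤ v * (lam * Real.log T) ∧
            |s.im - t| ≤ W * (lam * Real.log T)) →
          ∑ s ∈ S, (analyticOrderNatAt (flow (-lam)) s : ℝ) ≤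
            (v + ε) * (W * (lam * Real.log T ^ 2) / Real.pi)) ∧
        ∃ Z : Finset ℂ, (∀ s ∈ Z, flow (-lam) s = 0 ∧ |s.re - 1 / 2| ≤ v * (lam * Real.log T) ∧
            |s.im - t| ≤ W * (lam * Real.log T)) ∧
          (v - ε) * (W * (lam * Real.log T ^ 2) / Real.pi) ≤
            ∑ s ∈ Z, (analyticOrderNatAt (flow (-lam)) s : ℝ) := by
  intro ε W hε hW
  obtain ⟨A0, δ, T0, hA0, hδ, hT0, h⟩ := h ε W hε hW
  refine ⟨A0, δ, T0, by linarith, hδ, hT0, fun T lam hT h1 h2 => ?_⟩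
  have hL : 0 < Real.log T := Real.log_pos (by linarith)
  have hlam : 0 < lam := lt_of_lt_of_le (by positivity) h1
  rw [div_le_iff₀ (by positivity)] at h1
  rw [le_div_iff₀ hL] at h2
  obtain ⟨B, hB, h⟩ := h T lam hT hlam h1 h2
  refine ⟨B, hB, fun t ht htB => ?_⟩
  obtain ⟨h0, h⟩ := h t ht htB
  refine ⟨fun s hs hs2 => ?_, fun v hv0 hv1 => ?_⟩
  · have := h0 (s - 1 / 2) (by rw [← flow_eq]; exact hs) (by simpa using hs2)
    simpa using this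
  obtain ⟨h3, Z, hZ, hZ2⟩ := h v hv0 hv1
  refine ⟨fun S hS => ?_, Z.image (fun z : ℂ => z + 1 / 2), ?_, ?_⟩
  · rw [flow_sum]
    apply h3
    intro z hz
    obtain ⟨s, hs, rfl⟩ := Finset.mem_image.mp hz
    obtain ⟨a1, a2, a3⟩ := hS s hs
    rw [flow_eq] at a1
    refine ⟨a1, ?_, ?_⟩
    · simpa using a2
    · simpa using a3
  · intro s hs
    obtain ⟨z, hz, rfl⟩ := Finset.mem_image.mp hs
    obtain ⟨a1, a2, a3⟩ := hZ z hz
    refine ⟨?_, ?_, ?_⟩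
    · rw [flow_eq, add_sub_cancel_right]
      exact a1
    · simpa using a2
    · simpa using a3
  · rw [flow_sum']
    exact hZ2

end Pool.Agent.H466.HE
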