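import Pool.Agent.H466.HE.Asm2
import Pool.Agent.H466.HE.F4
import Pool.Agent.H106.HE.LLW
import Pool.Agent.H116.HE.KS2
import Pool.Agent.H734.HE.LUP
import Pool.Agent.H571.HE.GGM
import Pool.Agent.H466.HE.BAD

/-!
# Assembly, part 3
-/

set_option autoImplicit false

namespace Pool.Agent.H466.HE

open Pool.Agent.H466.HP Pool.Agent.H466.HN Pool.Agent.H466.HD

theorem ks2 : S_KS2 := Pool.Agent.H116.HE.ks2
theorem lup : S_LUP := Pool.Agent.H734.HE.lup jx ks2
theorem ggm : S_GGM := Pool.Agent.H571.HE.ggm hbg reg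
theorem badd : S_BAD := bad cntg regx
theorem llw : S_LLW := Pool.Agent.H106.HE.LLW.llw lup ggm badd uni zf1 zf4

end Pool.Agent.H466.HE
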