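import Pool.Agent.H466.HE.SB
import Pool.Agent.H466.HD.F1

/-!
# Uniform distribution of the zeros at negative times: statement for `ξ`
-/

set_option autoImplicit false

open Complex MeasureTheory Filter Topology Set
open scoped ComplexConjugate

namespace Pool.Agent.H466.HE

open Pool.Agent.H466.HF Pool.Agent.H466.LD Pool.Agent.H466.HP Pool.Agent.H466.HN Pool.Agent.H466.HD

/-- sums over zeros of the flow -/
lemma flow_sum (lam : ℝ) (S : Finset ℂ) :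
    ∑ s ∈ S, (analyticOrderNatAt (flow lam) s : ℝ) =
      ∑ z ∈ S.image (fun s : ℂ => s - 1 / 2), (analyticOrderNatAt (LL gk lam) z : ℝ) := by
  rw [Finset.sum_image (fun a _ b _ h => sub_left_injective h)]
  exact Finset.sum_congr rfl fun s _ => by rw [flow_order]

lemma flow_sum' (lam : ℝ) (Z : Finset ℂ) :
    ∑ s ∈ Z.image (fun z : ℂ => z + 1 / 2), (analyticOrderNatAt (flow lam) s : ℝ) =
      ∑ z ∈ Z, (analyticOrderNatAt (LL gk lam) z : ℝ) := by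
  rw [Finset.sum_image (fun a _ b _ h => add_left_injective _ h)]
  exact Finset.sum_congr rfl fun s _ => by rw [flow_order, add_sub_cancel_right]

theorem uni_flow (h : S_UNI) : ∀ ε : ℝ, 0 < ε → ∃ A0 δ T0 : ℝ, 0 < A0 ∧ 0 < δ ∧ 10 ≤ T0 ∧
    ∀ T lam : ℝ, T0 ≤ T → A0 / Real.log T ^ 2 ≤ lam → lam ≤ δ / Real.log T →
      ∀ v : ℝ, 0 ≤ v → v ≤ 1 →
      (∀ S : Finset ℂ, (∀ s ∈ S, flow (-lam) s = 0 ∧ |s.re - 1 / 2| ≤ v * (lam * Real.log T) ∧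
          T ≤ s.im ∧ s.im ≤ 2 * T) →
        ∑ s ∈ S, (analyticOrderNatAt (flow (-lam)) s : ℝ) ≤
          (v + ε) * (T * Real.log T / (2 * Real.pi))) ∧
      ∃ Z : Finset ℂ, (∀ s ∈ Z, flow (-lam) s = 0 ∧ |s.re - 1 / 2| ≤ v * (lam * Real.log T) ∧
          T ≤ s.im ∧ s.im ≤ 2 * T) ∧
        (v - ε) * (T * Real.log T / (2 * Real.pi)) ≤
          ∑ s ∈ Z, (analyticOrderNatAt (flow (-lam)) s : ℝ) := by
  intro ε hε
  obtain ⟨A0, δ, T0, hA0, hδ, hT0, h⟩ := h ε hε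
  refine ⟨A0, δ, T0, by linarith, hδ, hT0, fun T lam hT h1 h2 v hv0 hv1 => ?_⟩
  have hL : 0 < Real.log T := Real.log_pos (by linarith)
  have hlam : 0 < lam := lt_of_lt_of_le (by positivity) h1
  rw [div_le_iff₀ (by positivity)] at h1
  rw [le_div_iff₀ hL] at h2
  obtain ⟨h3, Z, hZ, hZ2⟩ := h T lam hT hlam h1 h2 v hv0 hv1
  refine ⟨fun S hS => ?_, Z.image (fun z : ℂ => z + 1 / 2), ?_, ?_⟩
  · rw [flow_sum]
    apply h3
    intro z hz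
    obtain ⟨s, hs, rfl⟩ := Finset.mem_image.mp hz
    obtain ⟨a1, a2, a3, a4⟩ := hS s hs
    rw [flow_eq] at a1
    refine ⟨a1, ?_, ?_, ?_⟩
    · simpa using a2
    · simpa using a3
    · simpa using a4
  · intro s hs
    obtain ⟨z, hz, rfl⟩ := Finset.mem_image.mp hs
    obtain ⟨a1, a2, a3, a4⟩ := hZ z hz
    refine ⟨?_, ?_, ?_, ?_⟩
    · rw [flow_eq, add_sub_cancel_right]
      exact a1
    · simpa using a2
    · simpa using a3
    · simpa using a4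
  · rw [flow_sum']
    exact hZ2

/-- **TUB**: sharp upper bound for the number of all zeros -/
def S_TUB : Prop := ∀ ε : ℝ, 0 < ε → ∃ A0 δ T0 : ℝ, 1 ≤ A0 ∧ 0 < δ ∧ 10 ≤ T0 ∧
  ∀ T μ : ℝ, T0 ≤ T → 0 < μ → A0 ≤ μ * Real.log T ^ 2 → μ * Real.log T ≤ δ →
    ∀ S : Finset ℂ, (∀ z ∈ S, LL gk (-μ) z = 0 ∧ T ≤ z.im ∧ z.im ≤ 2 * T) →
      ∑ z ∈ S, (analyticOrderNatAt (LL gk (-μ)) z : ℝ) ≤
        (1 + ε) * (T * Real.log T / (2 * Real.pi))

theorem tub_flow (h : S_TUB) : ∀ ε : ℝ, 0 < ε → ∃ A0 δ T0 : ℝ, 0 < A0 ∧ 0 < δ ∧ 10 ≤ T0 ∧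
    ∀ T lam : ℝ, T0 ≤ T → A0 / Real.log T ^ 2 ≤ lam → lam ≤ δ / Real.log T →
      ∀ S : Finset ℂ, (∀ s ∈ S, flow (-lam) s = 0 ∧ T ≤ s.im ∧ s.im ≤ 2 * T) →
        ∑ s ∈ S, (analyticOrderNatAt (flow (-lam)) s : ℝ) ≤
          (1 + ε) * (T * Real.log T / (2 * Real.pi)) := by
  intro ε hε
  obtain ⟨A0, δ, T0, hA0, hδ, hT0, h⟩ := h ε hε
  refine ⟨A0, δ, T0, by linarith, hδ, hT0, fun T lam hT h1 h2 S hS => ?_⟩
  have hL : 0 < Real.log T := Real.log_pos (by linarith)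
  have hlam : 0 < lam := lt_of_lt_of_le (by positivity) h1
  rw [div_le_iff₀ (by positivity)] at h1
  rw [le_div_iff₀ hL] at h2
  rw [flow_sum]
  apply h T lam hT hlam h1 h2
  intro z hz
  obtain ⟨s, hs, rfl⟩ := Finset.mem_image.mp hz
  obtain ⟨a1, a3, a4⟩ := hS s hs
  rw [flow_eq] at a1
  refine ⟨a1, ?_, ?_⟩
  · simpa using a3
  · simpa using a4

end Pool.Agent.H466.HE
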