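import Pool.Agent.H466.HE.SA
import Pool.Agent.H466.HD.SC

/-!
# Statements, part B: the zeros of the backward heat flow are uniformly distributed in the strip

`H = LL gk (-μ)` is the backward heat flow of `ξ` at the time `μ = A / L²`, `L = log T`,
`Δ = μ L = A / L`, `F = LL gk 0`. Goal: the zeros of `H` at the height `T` are uniformly distributed
in the strip `|Re z| ≤ Δ`.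
-/

set_option autoImplicit false

namespace Pool.Agent.H466.HE

open Complex MeasureTheory Set Filter Topology
open scoped ComplexConjugate
open Pool.Agent.H466.HF Pool.Agent.H466.LD Pool.Agent.H466.HP Pool.Agent.H466.HN Pool.Agent.H466.HD
open Pool.Agent.H862.VK (Yz)

/-- **FBg**: Gaussian averages of `F` at a complex frequency, from the backward heat flow on the
line `Re z = x` -/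
def S_FBg : Prop := ∀ μ : ℝ, 0 < μ → ∀ (x y : ℝ) (ω : ℂ),
  ‖∫ v : ℝ, LL gk 0 (((y + v : ℝ) : ℂ) * I) * cexp (-(I * ω * v)) *
      (Real.exp (-v ^ 2 / (8 * μ)) : ℂ)‖ ≤
    2 * Real.exp (2 * μ * (ω.re - x / (2 * μ)) ^ 2 - x ^ 2 / (4 * μ)) *
      ∫ v : ℝ, ‖LL gk (-μ) ((x : ℂ) + ((y + v : ℝ) : ℂ) * I)‖ *
        Real.exp (2 * ω.im * v) * Real.exp (-v ^ 2 / (4 * μ))

/-- **UHg**: upper bound for the backward heat flow on vertical lines in the strip, around a regular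
point -/
def S_UHg : Prop :=
  ∃ δ2 Kc : ℝ, 0 < δ2 ∧ 0 < Kc ∧ ∀ η : ℝ, 0 < η → ∃ κ0 : ℝ, 0 < κ0 ∧ ∀ κ : ℝ, 0 < κ → κ ≤ κ0 →
    ∀ A1 : ℝ, 1 ≤ A1 → ∃ A0 T0 : ℝ, 1 ≤ A0 ∧ 10 ≤ T0 ∧
    ∀ T t μ : ℝ, T0 ≤ T → T ≤ t → t ≤ 2 * T → Rg T t A1 (1 / κ) κ → 0 < μ →
      A0 ≤ μ * Real.log T ^ 2 → μ * Real.log T ≤ δ2 →
      ∀ x y : ℝ, 0 ≤ x → x ≤ μ * Real.log T →
        ‖LL gk (-μ) ((x : ℂ) + (y : ℂ) * I)‖ ≤ Gm T t μ *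
          Real.exp (x ^ 2 / (4 * μ) + η * (μ * Real.log T ^ 2 + Real.log T * |y - t|) +
            Kc * Real.log T * (y - t) ^ 2)

/-- **HBg**: the backward heat flow has the expected size near most points -/
def S_HBg : Prop := ∀ ρ ε0 x0 : ℝ, 0 < ρ → ρ ≤ 1 / 4 → 0 < ε0 → 0 ≤ x0 → x0 ≤ 1 →
  ∃ κ0 : ℝ, 0 < κ0 ∧ ∀ κ : ℝ, 0 < κ → κ ≤ κ0 → ∀ A1 : ℝ, 1 ≤ A1 →
    ∃ A0 δ T0 : ℝ, 1 ≤ A0 ∧ 0 < δ ∧ 10 ≤ T0 ∧ ∀ T μ : ℝ, T0 ≤ T → 0 < μ →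
    A0 ≤ μ * Real.log T ^ 2 → μ * Real.log T ≤ δ →
    volume {t : ℝ | t ∈ Icc T (2 * T) ∧ Rg T t A1 (1 / κ) κ ∧
      ∀ z : ℂ, ‖z - ((x0 * (μ * Real.log T) : ℝ) + (t : ℂ) * I)‖ ≤ ρ * (μ * Real.log T) →
        ‖LL gk (-μ) z‖ < Gm T t μ * Real.exp ((x0 ^ 2 / 4 - ρ) * (μ * Real.log T ^ 2))} ≤
      ENNReal.ofReal (ε0 * T)

/-- **JX**: Jensen's formula with the sharp constant -/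
def S_JX : Prop := ∃ C : ℝ, 0 < C ∧ ∀ ρ R : ℝ, 0 < ρ → ρ ≤ R → R ≤ 1 →
  ∃ κ0 δ2 : ℝ, 0 < κ0 ∧ 0 < δ2 ∧ ∀ κ : ℝ, 0 < κ → κ ≤ κ0 → ∀ A1 : ℝ, 1 ≤ A1 →
    ∃ A0 T0 : ℝ, 1 ≤ A0 ∧ 10 ≤ T0 ∧
    ∀ T t μ x0 : ℝ, T0 ≤ T → T ≤ t → t ≤ 2 * T → Rg T t A1 (1 / κ) κ → 0 < μ →
      A0 ≤ μ * Real.log T ^ 2 → μ * Real.log T ≤ δ2 → 0 ≤ x0 → x0 ≤ 1 →
      (∃ z : ℂ, ‖z - ((x0 * (μ * Real.log T) : ℝ) + (t : ℂ) * I)‖ ≤ ρ * (μ * Real.log T) ∧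
        Gm T t μ * Real.exp ((x0 ^ 2 / 4 - ρ) * (μ * Real.log T ^ 2)) ≤ ‖LL gk (-μ) z‖) →
      ∀ S : Finset ℂ, (∀ z ∈ S, LL gk (-μ) z = 0) →
        ∑ z ∈ S, (analyticOrderNatAt (LL gk (-μ)) z : ℝ) *
          kk R ρ (‖z - ((x0 * (μ * Real.log T) : ℝ) + (t : ℂ) * I)‖ / (μ * Real.log T)) ≤
          (R ^ 2 / 8 + C * ρ) * (μ * Real.log T ^ 2)

/-- **CNTg**: local count of the zeros at the points regular at a larger scale, wide -/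
def S_CNTg : Prop := ∀ C1 : ℝ, 1 ≤ C1 →
  ∃ κ C A0 T0 δ : ℝ, 0 < κ ∧ 0 < C ∧ 1 ≤ A0 ∧ 10 ≤ T0 ∧ 0 < δ ∧
    ∀ T t y0 μ : ℝ, T0 ≤ T → T / 2 ≤ t → t ≤ 4 * T → 0 < y0 → y0 ≤ 2 →
      Reg1 t y0 64 κ (Real.log T) → 0 < μ → A0 ≤ μ * Real.log T ^ 2 →
      μ * Real.log T ≤ δ → μ * Real.log T ≤ 64 * y0 →
      ∀ S : Finset ℂ, (∀ z ∈ S, LL gk (-μ) z = 0 ∧ |z.im - t| ≤ μ * Real.log T ∧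
          |z.re| ≤ C1 * y0) →
        ∑ z ∈ S, (analyticOrderNatAt (LL gk (-μ)) z : ℝ) ≤ C * (y0 * Real.log T)

/-- **PHI**: average of the kernel over the centres on a vertical line -/
def S_PHI : Prop := ∃ C : ℝ, 0 < C ∧ ∀ ρ R x0 : ℝ, 0 < ρ → ρ ≤ 1 / 4 → ρ ≤ R → R ≤ 1 → 0 ≤ x0 →
  x0 ≤ 1 → ∃ A0 δ T0 : ℝ, 1 ≤ A0 ∧ 0 < δ ∧ 10 ≤ T0 ∧ ∀ T μ : ℝ, T0 ≤ T → 0 < μ →
    A0 ≤ μ * Real.log T ^ 2 → μ * Real.log T ≤ δ →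
    ∀ S : Finset ℂ, (∀ z ∈ S, LL gk (-μ) z = 0 ∧ T ≤ z.im ∧ z.im ≤ 2 * T) →
      ∑ z ∈ S, (analyticOrderNatAt (LL gk (-μ)) z : ℝ) *
        (∫ t : ℝ, kk R ρ (‖z - ((x0 * (μ * Real.log T) : ℝ) + (t : ℂ) * I)‖ /
          (μ * Real.log T))) ≤
        (R ^ 2 / 8 + C * ρ) * (μ * Real.log T ^ 2) * T

/-- **UPP**: sharp upper bound for the number of the zeros in vertical strips -/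
def S_UPP : Prop := ∀ ε : ℝ, 0 < ε → ∃ ε' A0 δ T0 : ℝ, 0 < ε' ∧ 1 ≤ A0 ∧ 0 < δ ∧ 10 ≤ T0 ∧
  ∀ T μ : ℝ, T0 ≤ T → 0 < μ → A0 ≤ μ * Real.log T ^ 2 → μ * Real.log T ≤ δ →
    ∀ a b : ℝ, 0 ≤ a → a ≤ b → b ≤ 1 →
    ∀ S : Finset ℂ, (∀ z ∈ S, LL gk (-μ) z = 0 ∧ T ≤ z.im ∧ z.im ≤ 2 * T ∧
        (a - ε') * (μ * Real.log T) ≤ z.re ∧ z.re ≤ (b + ε') * (μ * Real.log T)) →
      ∑ z ∈ S, (analyticOrderNatAt (LL gk (-μ)) z : ℝ) ≤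
        ((b - a) / 2 + ε) * (T * Real.log T / (2 * Real.pi))

/-- **TLBg**: lower bound for the number of all zeros, sharp -/
def S_TLBg : Prop := ∀ ε : ℝ, 0 < ε → ∃ R0 δ T0 : ℝ, 1 ≤ R0 ∧ 0 < δ ∧ 10 ≤ T0 ∧
  ∀ T μ : ℝ, T0 ≤ T → 0 < μ → μ * Real.log T ≤ δ →
    ∃ S : Finset ℂ, (∀ z ∈ S, LL gk (-μ) z = 0 ∧ |z.re| ≤ R0 ∧ T ≤ z.im ∧ z.im ≤ 2 * T) ∧
      (1 - ε) * (T * Real.log T / (2 * Real.pi)) ≤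
        ∑ z ∈ S, (analyticOrderNatAt (LL gk (-μ)) z : ℝ)

/-- **ZFG**: no zero, by the saddle point method on a vertical line -/
def S_ZFG : Prop := ∃ κ1 K : ℝ, 0 < κ1 ∧ 0 < K ∧ ∀ (μ L s : ℝ) (z : ℂ), 0 < μ → 0 < L → 0 < s →
  K * μ ≤ s ^ 2 →
  (∀ w : ℂ, ‖w - (z - (μ * L : ℝ))‖ ≤ s → LL gk 0 w ≠ 0 ∧
    2 * μ * ‖P w - (L / 2 : ℝ)‖ ≤ s / 4) →
  (∀ w w' : ℂ, ‖w - (z - (μ * L : ℝ))‖ ≤ s → ‖w' - (z - (μ * L : ℝ))‖ ≤ s →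
    ‖P w - P w'‖ ≤ κ1 * ‖w - w'‖ / μ) →
  (∀ (w : ℂ) (v : ℝ), ‖w - (z - (μ * L : ℝ))‖ ≤ s / 4 → s / 4 ≤ |v| →
    ‖LL gk 0 (w + v * I)‖ ≤ ‖LL gk 0 w‖ * Real.exp (v ^ 2 / (8 * μ))) →
  LL gk (-μ) z ≠ 0

/-- **ZF1**: at the regular points there are no zeros to the right of the strip -/
def S_ZF1 : Prop := ∀ ε R0 : ℝ, 0 < ε → ε ≤ 1 → 1 ≤ R0 →
  ∃ κ0 δ2 : ℝ, 0 < κ0 ∧ 0 < δ2 ∧ ∀ κ : ℝ, 0 < κ → κ ≤ κ0 → ∀ A1 : ℝ, 1 ≤ A1 →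
    ∃ A0 T0 : ℝ, 1 ≤ A0 ∧ 10 ≤ T0 ∧
    ∀ T t μ : ℝ, T0 ≤ T → T ≤ t → t ≤ 2 * T → Rg T t A1 (1 / κ) κ → 0 < μ →
      A0 ≤ μ * Real.log T ^ 2 → μ * Real.log T ≤ δ2 →
      ∀ z : ℂ, (1 + ε) * (μ * Real.log T) ≤ z.re → z.re ≤ R0 → |z.im - t| ≤ μ * Real.log T →
        LL gk (-μ) z ≠ 0

/-- **ZF2**: the same at the points regular at a larger scale -/
def S_ZF2 : Prop := ∀ R0 : ℝ, 1 ≤ R0 →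
  ∃ κ C1 A0 T0 δ : ℝ, 0 < κ ∧ 1 ≤ C1 ∧ 1 ≤ A0 ∧ 10 ≤ T0 ∧ 0 < δ ∧
    ∀ T t y0 μ : ℝ, T0 ≤ T → T / 2 ≤ t → t ≤ 4 * T → 0 < y0 → y0 ≤ 2 →
      Reg1 t y0 64 κ (Real.log T) → 0 < μ → A0 ≤ μ * Real.log T ^ 2 →
      μ * Real.log T ≤ δ → μ * Real.log T ≤ 64 * y0 →
      ∀ z : ℂ, C1 * y0 ≤ z.re → z.re ≤ R0 → |z.im - t| ≤ μ * Real.log T → LL gk (-μ) z ≠ 0

/-- **ZF4**: all zeros are at a bounded distance from the line -/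
def S_ZF4 : Prop := ∃ δ T0 : ℝ, 0 < δ ∧ 10 ≤ T0 ∧ ∀ T μ : ℝ, T0 ≤ T → 0 < μ →
  μ * Real.log T ≤ δ → ∀ z : ℂ, T ≤ z.im → z.im ≤ 2 * T → 3 ≤ |z.re| → LL gk (-μ) z ≠ 0

/-- **OUT**: few zeros outside the strip -/
def S_OUT : Prop := ∀ ε R0 : ℝ, 0 < ε → ε ≤ 1 → 1 ≤ R0 →
  ∃ A0 δ T0 : ℝ, 1 ≤ A0 ∧ 0 < δ ∧ 10 ≤ T0 ∧ ∀ T μ : ℝ, T0 ≤ T → 0 < μ →
    A0 ≤ μ * Real.log T ^ 2 → μ * Real.log T ≤ δ →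
    ∀ S : Finset ℂ, (∀ z ∈ S, LL gk (-μ) z = 0 ∧ (1 + ε) * (μ * Real.log T) ≤ |z.re| ∧
        |z.re| ≤ R0 ∧ T ≤ z.im ∧ z.im ≤ 2 * T) →
      ∑ z ∈ S, (analyticOrderNatAt (LL gk (-μ)) z : ℝ) ≤ ε * (T * Real.log T)

/-- **UNI**: uniform distribution in the strip -/
def S_UNI : Prop := ∀ ε : ℝ, 0 < ε → ∃ A0 δ T0 : ℝ, 1 ≤ A0 ∧ 0 < δ ∧ 10 ≤ T0 ∧
  ∀ T μ : ℝ, T0 ≤ T → 0 < μ → A0 ≤ μ * Real.log T ^ 2 → μ * Real.log T ≤ δ →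
    ∀ v : ℝ, 0 ≤ v → v ≤ 1 →
    (∀ S : Finset ℂ, (∀ z ∈ S, LL gk (-μ) z = 0 ∧ |z.re| ≤ v * (μ * Real.log T) ∧
        T ≤ z.im ∧ z.im ≤ 2 * T) →
      ∑ z ∈ S, (analyticOrderNatAt (LL gk (-μ)) z : ℝ) ≤
        (v + ε) * (T * Real.log T / (2 * Real.pi))) ∧
    ∃ Z : Finset ℂ, (∀ z ∈ Z, LL gk (-μ) z = 0 ∧ |z.re| ≤ v * (μ * Real.log T) ∧
        T ≤ z.im ∧ z.im ≤ 2 * T) ∧
      (v - ε) * (T * Real.log T / (2 * Real.pi)) ≤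
        ∑ z ∈ Z, (analyticOrderNatAt (LL gk (-μ)) z : ℝ)

end Pool.Agent.H466.HE
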